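import Pool.Agent.Lib_helper36.Contains13

/-!
# MP_a73857_co: the zero-one law for unit distance graphs of typical norms fails

All notions are defined here from the problem file: `d`-norms, the topology of uniform convergence
on the Euclidean unit sphere, meagre sets, the unit distance graph of a norm.
-/

set_option autoImplicit false

open Set Filter Topology

namespace Pool.Agent.Results.MP_a73857_co.NoZeroOneLaw

open Pool.Agent.Lib_helper36

/-- A `d`-norm: a norm on `ℝ^d`. -/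
structure DNorm (d : ℕ) where
  /-- the norm of a vector -/
  toFun : (Fin d → ℝ) → ℝ
  eq_zero : ∀ x, toFun x = 0 → x = 0
  add_le : ∀ x y, toFun (x + y) ≤ toFun x + toFun y
  smul : ∀ (c : ℝ) (x : Fin d → ℝ), toFun (c • x) = |c| * toFun x

instance (d : ℕ) : CoeFun (DNorm d) fun _ => (Fin d → ℝ) → ℝ := ⟨DNorm.toFun⟩

/-- The Euclidean unit sphere of `ℝ^d`. -/
def unitSphere (d : ℕ) : Set (Fin d → ℝ) := {x | ∑ i, x i ^ 2 = 1}

/-- The topology of uniform convergence on the Euclidean unit sphere: a set `U` of `d`-norms is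
open iff with every `N` it contains, for some `ε > 0`, all `d`-norms which are `ε`-close to `N` at
all points of the sphere. -/
instance (d : ℕ) : TopologicalSpace (DNorm d) where
  IsOpen U := ∀ N ∈ U, ∃ ε : ℝ, 0 < ε ∧
    ∀ M : DNorm d, (∀ x ∈ unitSphere d, |M x - N x| < ε) → M ∈ U
  isOpen_univ := fun _ _ => ⟨1, one_pos, fun _ _ => mem_univ _⟩
  isOpen_inter := by
    rintro U V hU hV N ⟨hNU, hNV⟩
    obtain ⟨ε, hε, h1⟩ := hU N hNU
    obtain ⟨δ, hδ, h2⟩ := hV N hNV
    exact ⟨min ε δ, lt_min hε hδ, fun M hM =>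
      ⟨h1 M fun x hx => (hM x hx).trans_le (min_le_left _ _),
        h2 M fun x hx => (hM x hx).trans_le (min_le_right _ _)⟩⟩
  isOpen_sUnion := by
    rintro S hS N ⟨U, hU, hN⟩
    obtain ⟨ε, hε, h⟩ := hS U hU N hN
    exact ⟨ε, hε, fun M hM => ⟨U, hU, h M hM⟩⟩

/-- A set is meagre if it is a countable union of nowhere dense sets (sets whose closure has empty
interior). -/
def Meagre {X : Type*} [TopologicalSpace X] (A : Set X) : Prop :=
  ∃ F : ℕ → Set X, (∀ n, interior (closure (F n)) = ∅) ∧ A = ⋃ n, F n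

lemma DNorm.map_zero {d : ℕ} (N : DNorm d) : N 0 = 0 := by
  have := N.smul 0 0
  simpa using this

lemma DNorm.map_neg {d : ℕ} (N : DNorm d) (x : Fin d → ℝ) : N (-x) = N x := by
  have h2 := N.smul (-1) x
  simpa using h2

/-- The unit distance graph of a `d`-norm. -/
def unitDistanceGraph {d : ℕ} (N : DNorm d) : SimpleGraph (Fin d → ℝ) where
  Adj x y := N (x - y) = 1
  symm := ⟨fun x y h => by
    show N (y - x) = 1
    rw [← neg_sub, DNorm.map_neg]; exact h⟩
  loopless := ⟨fun x h => by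
    change N (x - x) = 1 at h
    rw [sub_self, DNorm.map_zero] at h
    exact zero_ne_one h⟩

/-- `A_H`: the set of all `d`-norms whose unit distance graph contains `H` as a subgraph, that is,
there is an injective map of the vertices of `H` to `ℝ^d` which sends every edge of `H` to an edge
of the unit distance graph. -/
def normsContaining (d : ℕ) {n : ℕ} (H : SimpleGraph (Fin n)) : Set (DNorm d) :=
  {N | ∃ φ : Fin n → (Fin d → ℝ), Function.Injective φ ∧
    ∀ u v, H.Adj u v → (unitDistanceGraph N).Adj (φ u) (φ v)}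

/-- The graph with vertices `0, ..., 12` and 24 edges: two triangulated strips from the vertex `0`
to the vertex `7`. -/
def stripGraph : SimpleGraph (Fin 13) := SimpleGraph.fromRel fun a b => (a, b) ∈
  ([(0, 1), (0, 2), (1, 2), (1, 3), (2, 3), (2, 4), (3, 4), (3, 5), (4, 5), (3, 6), (5, 6), (5, 7),
   (6, 7), (0, 8), (8, 9), (9, 7), (0, 10), (10, 8), (8, 11), (10, 11), (11, 9), (9, 12), (11, 12),
   (12, 7)] : List (Fin 13 × Fin 13))

/-! ## comparison with the space of continuous norms -/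

lemma continuous_dnorm {d : ℕ} (N : DNorm d) : Continuous fun x => N x := by
  have hc : ConvexOn ℝ univ fun x => N x := by
    refine ⟨convex_univ, ?_⟩
    intro x _ y _ a b ha hb _
    have h1 := N.add_le (a • x) (b • y)
    rw [N.smul, N.smul, abs_of_nonneg ha, abs_of_nonneg hb] at h1
    exact h1
  exact hc.locallyLipschitz.continuous

/-- the comparison map -/
noncomputable def toSp {d : ℕ} (N : DNorm d) : NormSp d :=
  ⟨⟨fun x => N x, continuous_dnorm N⟩, N.eq_zero, N.add_le, N.smul⟩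

/-- its inverse -/
def ofSp {d : ℕ} (N : NormSp d) : DNorm d := ⟨fun x => N.1 x, N.2.1, N.2.2.1, N.2.2.2⟩

lemma sphere_scale {d : ℕ} {x : Fin d → ℝ} (hx : x ≠ 0) :
    (Real.sqrt (∑ i, x i ^ 2))⁻¹ • x ∈ unitSphere d := by
  have hpos : 0 < ∑ i, x i ^ 2 := by
    obtain ⟨i, hi⟩ := Function.ne_iff.mp hx
    refine Finset.sum_pos' (fun j _ => sq_nonneg _) ⟨i, Finset.mem_univ _, ?_⟩
    have : x i ≠ 0 := hi
    positivity
  show ∑ i, ((Real.sqrt (∑ j, x j ^ 2))⁻¹ • x) i ^ 2 = 1
  have h : ∀ i, ((Real.sqrt (∑ j, x j ^ 2))⁻¹ • x) i ^ 2 = (∑ j, x j ^ 2)⁻¹ * x i ^ 2 := by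
    intro i
    rw [Pi.smul_apply, smul_eq_mul, mul_pow, inv_pow, Real.sq_sqrt hpos.le]
  simp only [h]
  rw [← Finset.mul_sum, inv_mul_cancel₀ hpos.ne']

/-- closeness on the sphere gives closeness everywhere -/
lemma close_all {d : ℕ} {N M : (Fin d → ℝ) → ℝ} (hN0 : N 0 = 0) (hM0 : M 0 = 0)
    (hN : ∀ (c : ℝ) x, N (c • x) = |c| * N x) (hM : ∀ (c : ℝ) x, M (c • x) = |c| * M x) {ε : ℝ}
    (h : ∀ x ∈ unitSphere d, |M x - N x| ≤ ε) (x : Fin d → ℝ) :
    |M x - N x| ≤ ε * Real.sqrt (∑ i, x i ^ 2) := by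
  by_cases hx : x = 0
  · subst hx
    rw [hN0, hM0]; simp
  · have hpos : 0 < Real.sqrt (∑ i, x i ^ 2) := by
      obtain ⟨i, hi⟩ := Function.ne_iff.mp hx
      refine Real.sqrt_pos.mpr (Finset.sum_pos' (fun j _ => sq_nonneg _)
        ⟨i, Finset.mem_univ _, ?_⟩)
      have : x i ≠ 0 := hi
      positivity
    have h2 := h _ (sphere_scale hx)
    rw [hN, hM, abs_of_pos (inv_pos.mpr hpos), ← mul_sub, abs_mul, abs_of_pos (inv_pos.mpr hpos)]
      at h2
    rw [inv_mul_le_iff₀ hpos] at h2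
    linarith

lemma isCompact_unitSphere (d : ℕ) : IsCompact (unitSphere d) := by
  refine Metric.isCompact_of_isClosed_isBounded ?_ ?_
  · exact isClosed_eq (by fun_prop) continuous_const
  · refine (Metric.isBounded_closedBall (x := (0 : Fin d → ℝ)) (r := 1)).subset ?_
    intro x hx
    rw [mem_closedBall_zero_iff, pi_norm_le_iff_of_nonneg zero_le_one]
    intro i
    have h1 : x i ^ 2 ≤ 1 := by
      rw [← (show ∑ i, x i ^ 2 = 1 from hx)]
      exact Finset.single_le_sum (f := fun i => x i ^ 2) (fun j _ => sq_nonneg _)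
        (Finset.mem_univ i)
    rw [Real.norm_eq_abs]
    exact (sq_le_one_iff_abs_le_one _).mp h1

/-- A neighbourhood of `N`. -/
lemma ball_mem_nhds {d : ℕ} (N : DNorm d) {ε : ℝ} (hε : 0 < ε) :
    {M : DNorm d | ∀ x ∈ unitSphere d, |M x - N x| < ε} ∈ 𝓝 N := by
  rw [mem_nhds_iff]
  refine ⟨{M | ∃ η : ℝ, 0 < η ∧ ∀ x ∈ unitSphere d, |M x - N x| ≤ ε - η}, ?_, ?_, ?_⟩
  · rintro M ⟨η, hη, hM⟩ x hx
    have := hM x hx
    linarith
  · rintro M ⟨η, hη, hM⟩
    refine ⟨η / 2, half_pos hη, fun M' hM' => ⟨η / 2, half_pos hη, fun x hx => ?_⟩⟩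
    have h1 := hM x hx
    have h2 := hM' x hx
    have h3 : |M' x - N x| ≤ |M' x - M x| + |M x - N x| := abs_sub_le _ _ _
    linarith
  · refine ⟨ε, hε, fun x _ => ?_⟩
    simp

lemma continuous_toSp (d : ℕ) : Continuous (toSp (d := d)) := by
  rw [continuous_iff_continuousAt]
  intro N
  show Tendsto toSp (𝓝 N) (𝓝 (toSp N))
  rw [tendsto_subtype_rng, ContinuousMap.tendsto_iff_forall_isCompact_tendstoUniformlyOn]
  intro K hK
  rw [Metric.tendstoUniformlyOn_iff]
  intro ε hε
  obtain ⟨R, hR⟩ : ∃ R : ℝ, ∀ x ∈ K, Real.sqrt (∑ i, x i ^ 2) ≤ R := by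
    have hcont : Continuous fun x : Fin d → ℝ => Real.sqrt (∑ i, x i ^ 2) := by fun_prop
    obtain ⟨R, hR⟩ := (hK.image hcont).bddAbove
    exact ⟨R, fun x hx => hR ⟨x, hx, rfl⟩⟩
  have hR' : 0 < |R| + 1 := by positivity
  filter_upwards [ball_mem_nhds N (ε := ε / (|R| + 1)) (by positivity)] with M hM x hx
  have h1 : |M x - N x| ≤ ε / (|R| + 1) * Real.sqrt (∑ i, x i ^ 2) :=
    close_all N.map_zero M.map_zero N.smul M.smul (fun y hy => (hM y hy).le) x
  have h2 : Real.sqrt (∑ i, x i ^ 2) < |R| + 1 := by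
    have := hR x hx
    have := le_abs_self R
    linarith
  have h3 : ε / (|R| + 1) * Real.sqrt (∑ i, x i ^ 2) < ε / (|R| + 1) * (|R| + 1) :=
    mul_lt_mul_of_pos_left h2 (by positivity)
  rw [div_mul_cancel₀ _ hR'.ne'] at h3
  rw [dist_comm, Real.dist_eq]
  exact h1.trans_lt h3

lemma continuous_ofSp (d : ℕ) : Continuous (ofSp (d := d)) := by
  rw [continuous_def]
  intro U hU
  rw [isOpen_iff_mem_nhds]
  intro N hN
  obtain ⟨ε, hε, h⟩ := hU (ofSp N) hN
  have ho : IsOpen {M : NormSp d | MapsTo (M.1 - N.1) (unitSphere d) (Ioo (-ε) ε)} := by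
    have h : IsOpen {g : C(Fin d → ℝ, ℝ) | MapsTo g (unitSphere d) (Ioo (-ε) ε)} :=
      ContinuousMap.isOpen_setOfPred_mapsTo (isCompact_unitSphere _) isOpen_Ioo
    exact h.preimage (continuous_subtype_val.sub continuous_const)
  refine Filter.mem_of_superset (ho.mem_nhds ?_) ?_
  · intro x _
    simp [hε]
  · intro M hM
    refine h (ofSp M) fun x hx => ?_
    have := hM hx
    rw [ContinuousMap.sub_apply] at this
    exact abs_lt.mpr this

/-- The two spaces of norms are homeomorphic. -/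
noncomputable def homeo (d : ℕ) : DNorm d ≃ₜ NormSp d where
  toFun := toSp
  invFun := ofSp
  left_inv _ := rfl
  right_inv _ := rfl
  continuous_toFun := continuous_toSp d
  continuous_invFun := continuous_ofSp d

instance (d : ℕ) : BaireSpace (DNorm d) := (homeo d).symm.baireSpace

lemma meagre_of_isMeagre {X : Type*} [TopologicalSpace X] {A : Set X} (h : IsMeagre A) :
    Meagre A := by
  obtain ⟨S, hS, hc, hA⟩ := isMeagre_iff_countable_union_isNowhereDense.mp h
  obtain ⟨f, hf⟩ := (hc.insert ∅).exists_eq_range ⟨∅, mem_insert _ _⟩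
  have hn : ∀ n, IsNowhereDense (f n) := by
    intro n
    have : f n ∈ insert ∅ S := by rw [hf]; exact ⟨n, rfl⟩
    rcases this with h | h
    · rw [h]; exact isNowhereDense_empty
    · exact hS _ h
  refine ⟨fun n => A ∩ f n, fun n => (hn n).mono inter_subset_right, ?_⟩
  rw [← inter_iUnion]
  refine (inter_eq_left.mpr fun x hx => ?_).symm
  obtain ⟨t, ht, hxt⟩ := hA hx
  have : t ∈ insert ∅ S := mem_insert_of_mem _ ht
  rw [hf] at this
  obtain ⟨n, rfl⟩ := this
  exact mem_iUnion.mpr ⟨n, hxt⟩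

lemma isMeagre_of_meagre {X : Type*} [TopologicalSpace X] {A : Set X} (h : Meagre A) :
    IsMeagre A := by
  obtain ⟨F, hF, rfl⟩ := h
  exact isMeagre_iUnion fun n => IsNowhereDense.isMeagre (hF n)

/-- strictly convex norms -/
def SCD : Set (DNorm 2) := toSp ⁻¹' SC

lemma SCD_mem_residual : SCD ∈ residual (DNorm 2) :=
  tendsto_residual_of_isOpenMap (homeo 2).continuous (homeo 2).isOpenMap SC_mem_residual

lemma mem_normsContaining {N : DNorm 2} {n : ℕ} {H : SimpleGraph (Fin n)} :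
    N ∈ normsContaining 2 H ↔ ∃ φ : Fin n → (Fin 2 → ℝ), Function.Injective φ ∧
      ∀ u v, H.Adj u v → (toSp N).1 (φ u - φ v) = 1 := Iff.rfl

/-- the maximum norm -/
noncomputable def maxNorm : DNorm 2 where
  toFun x := ‖x‖
  eq_zero x hx := norm_eq_zero.mp hx
  add_le x y := norm_add_le x y
  smul c x := by rw [norm_smul, Real.norm_eq_abs]

/-- the Euclidean norm -/
noncomputable def eucNorm : DNorm 2 where
  toFun x := euc x
  eq_zero := euc_eq_zero
  add_le := euc_add_le
  smul := euc_smul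

lemma euc_eq (x : Fin 2 → ℝ) : Real.sqrt (∑ i, x i ^ 2) = euc x := by
  rw [Fin.sum_univ_two]; rfl

lemma euc_le_two_mul (x : Fin 2 → ℝ) : euc x ≤ 2 * ‖x‖ := by
  have h0 : |x 0| ≤ ‖x‖ := norm_le_pi_norm x 0
  have h1 : |x 1| ≤ ‖x‖ := norm_le_pi_norm x 1
  refine Real.sqrt_le_iff.mpr ⟨by positivity, ?_⟩
  have h2 : x 0 ^ 2 ≤ ‖x‖ ^ 2 := by rw [← sq_abs]; exact pow_le_pow_left₀ (abs_nonneg _) h0 2
  have h3 : x 1 ^ 2 ≤ ‖x‖ ^ 2 := by rw [← sq_abs (x 1)]; exact pow_le_pow_left₀ (abs_nonneg _) h1 2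
  nlinarith [sq_nonneg ‖x‖]

/-- **The zero-one law fails.** `𝒩_d` is a Baire space for every `d`, and for `d = 2` and the graph
`H = stripGraph` on 13 vertices neither `A_H` nor its complement is meagre. Moreover: among the
norms which differ from the maximum norm by at most 1 percent only a meagre set does not contain
`H`, and among the norms which differ from the Euclidean norm by at most 1 percent only a meagre
set contains `H`. -/
theorem result :
    (∀ d : ℕ, BaireSpace (DNorm d)) ∧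
    (¬ Meagre (normsContaining 2 stripGraph) ∧ ¬ Meagre (normsContaining 2 stripGraph)ᶜ) ∧
    Meagre {N : DNorm 2 | (∀ x : Fin 2 → ℝ,
        |N x - max (|x 0|) (|x 1|)| ≤ 1 / 100 * max (|x 0|) (|x 1|)) ∧
      N ∉ normsContaining 2 stripGraph} ∧
    Meagre {N : DNorm 2 | (∀ x : Fin 2 → ℝ,
        |N x - Real.sqrt (x 0 ^ 2 + x 1 ^ 2)| ≤ 1 / 100 * Real.sqrt (x 0 ^ 2 + x 1 ^ 2)) ∧
      N ∈ normsContaining 2 stripGraph} := by
  have hH : stripGraph = H13 := rfl
  rw [hH]
  refine ⟨fun d => inferInstance, ⟨?_, ?_⟩, ?_, ?_⟩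
  · intro hA
    have h1 : (normsContaining 2 H13)ᶜ ∩ SCD ∈ residual (DNorm 2) :=
      Filter.inter_mem (isMeagre_of_meagre hA) SCD_mem_residual
    have h2 := dense_of_mem_residual h1
    obtain ⟨N, hN, hN1, hN2⟩ := mem_closure_iff_nhds.mp (h2 maxNorm) _
      (ball_mem_nhds maxNorm (ε := 1 / 200) (by norm_num))
    refine hN1 (mem_normsContaining.mpr (contains hN2 fun x => ?_))
    have h3 := close_all maxNorm.map_zero N.map_zero maxNorm.smul N.smul
      (fun y hy => (hN y hy).le) x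
    rw [euc_eq] at h3
    have h4 := euc_le_two_mul x
    show |N x - ‖x‖| ≤ 1 / 100 * ‖x‖
    have h5 : |N x - ‖x‖| ≤ 1 / 200 * euc x := h3
    linarith
  · intro hA
    have h1 : normsContaining 2 H13 ∩ SCD ∈ residual (DNorm 2) := by
      refine Filter.inter_mem ?_ SCD_mem_residual
      have := isMeagre_of_meagre hA
      rw [IsMeagre, compl_compl] at this
      exact this
    have h2 := dense_of_mem_residual h1
    obtain ⟨N, hN, hN1, hN2⟩ := mem_closure_iff_nhds.mp (h2 eucNorm) _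
      (ball_mem_nhds eucNorm (ε := 1 / 100) (by norm_num))
    refine not_contains hN2 (fun x => ?_) (mem_normsContaining.mp hN1)
    have h3 := close_all eucNorm.map_zero N.map_zero eucNorm.smul N.smul
      (fun y hy => (hN y hy).le) x
    rw [euc_eq] at h3
    exact h3
  · refine meagre_of_isMeagre ?_
    refine Filter.mem_of_superset SCD_mem_residual ?_
    rintro N hN ⟨h1, h2⟩
    refine h2 (mem_normsContaining.mpr (contains hN fun x => ?_))
    have := h1 x
    rw [norm_eq_max x]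
    exact this
  · refine meagre_of_isMeagre ?_
    refine Filter.mem_of_superset SCD_mem_residual ?_
    rintro N hN ⟨h1, h2⟩
    exact not_contains hN (fun x => h1 x) (mem_normsContaining.mp h2)

end Pool.Agent.Results.MP_a73857_co.NoZeroOneLaw
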